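import Pool.Agent.Lib.MP_0bb41e_ag.Defs
import Pool.Agent.Lib.MP_0bb41e_ag.NotLogRational
import Pool.Agent.Lib.MP_0bb41e_ag.Rational

/-!
# The log rationality conjecture fails in dimension three

There is a log Calabi-Yau pair `(X, B)` of dimension three and index one, with reduced boundary,
and a dlt modification `(Y, BY)` of it, such that `Y` and all strata of `(Y, BY)` are rational and
the dual complex of `(Y, BY)` is PL homeomorphic to the sphere of dimension two, which is not
crepant birational equivalent to `ℙ^3` with its coordinate hyperplanes.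

The example: `X = Y` is the double cover `z ^ 2 = x₀² x₁ + x₁² x₂ + x₂² x₀` of `(ℙ¹)³` and `B` is
the preimage of `{x₀ = 1} + {x₁ = 1} + {x₂ = 1}`. The divisorial valuations at which the Brauer
class `(z² / x₀³, (x₁ / x₀) (x₁ / x₀ - a))`, `a³ = 4`, ramifies are centred at the two singular
points `x = 0` and `x = ∞` and all of them have positive log discrepancy `≥ 2`, whereas on the
open set `𝔸³` of a toric model all log discrepancies of prime divisors are `≤ 1`, so that the class
would be unramified on `𝔸³`, hence trivial.
-/

namespace Pool.Agent.Results.MP_0bb41e_ag.LogRationalityFails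

open Pool.Agent.Lib.MP_0bb41e_ag

/-- The log rationality conjecture is false in dimension three, already for pairs of index one:
there is a pair satisfying its hypothesis which is not log rational. -/
theorem result :
    ∃ (K : Type) (_ : Field K) (_ : Algebra ℂ K) (P : LogCYPair K 3),
      P.ConjHyp ∧ ¬ P.IsLogRational := by
  obtain ⟨S⟩ := exists_setup
  obtain ⟨s, hs⟩ := IsAlgClosed.exists_pow_nat_eq (3 : ℂ) (n := 2) (by norm_num)
  refine ⟨FractionRing (MvPolynomial (Fin 3) ℂ), inferInstance, inferInstance, S.pair,
    ⟨S.model, S.bdry, S.dlt, isRationalPoint_top, fun W hW => ?_, S.dual_sphere⟩,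
    S.not_isLogRational⟩
  rcases (S.isStratum_iff s hs W).1 hW with ⟨J, hJ, hJ', rfl⟩ | rfl | rfl
  · exact S.OJ_rational J hJ hJ'
  · exact S.pt_rational s hs
  · exact S.pt_rational (-s) (neg_sq_three hs)

end Pool.Agent.Results.MP_0bb41e_ag.LogRationalityFails
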